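import Pool.Agent.R88.PI.Final

/-!
# The asymptotic value of the `p`-intersection number of unbalanced complete bipartite graphs

`theta p G` is the `p`-intersection number, `Dual α β γ` says that `α, β, γ ≥ 0` and
`α x y ≤ 1 + β x (x - 1) + γ y (y - 1)` for all natural numbers `x`, `y`, and `gval p a b` is the
value of the linear program in the three variables `α, β, γ`: maximise
`α p a b - (p - 1) (β a² + γ b²)` over all such `α, β, γ`.
-/

set_option autoImplicit false

namespace Pool.Agent.Results.MP_721e2b_co.Asymptotic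

open Filter Topology
open Pool.Agent.R88.PI

theorem result :
    -- the asymptotic formula `θ_p(K_{a,b}) = (1 + o(1)) g(a, b, p)`
    (∀ p : ℕ, 1 ≤ p → ∀ (a b : ℕ → ℕ) (l : ℝ), 0 < l → Tendsto a atTop atTop →
      Tendsto (fun n => (a n : ℝ) / b n) atTop (𝓝 l) →
      Tendsto (fun n => (theta p (completeBipartiteGraph (Fin (a n)) (Fin (b n))) : ℝ) /
        gval p (a n) (b n)) atTop (𝓝 1) ∧
      Tendsto (fun n => (theta p (completeBipartiteGraph (Fin (a n)) (Fin (b n))) : ℝ) /
        ((a n : ℝ) * b n)) atTop (𝓝 (gval p l 1 / l))) ∧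
    -- the lower bound holds for all `a`, `b`
    (∀ p : ℕ, 1 ≤ p → ∀ a b : ℕ,
      gval p a b ≤ theta p (completeBipartiteGraph (Fin a) (Fin b))) ∧
    -- symmetry
    (∀ (p : ℕ) (a b : ℝ), gval p a b = gval p b a) ∧
    -- the case `p = 1`
    (∀ a b : ℝ, 0 ≤ a → 0 ≤ b → gval 1 a b = a * b) ∧
    -- closed form in the range `1 ≤ a / b ≤ p / (p - 1)`
    (∀ p : ℕ, 2 ≤ p → ∀ a b : ℝ, 0 ≤ b → b ≤ a → (p - 1) * a ≤ p * b →
      gval p a b = 2 * a * b - (p - 1) / p * a ^ 2 - b ^ 2) := by
  refine ⟨?_, ?_, ?_, ?_, ?_⟩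
  · intro p hp a b l hl ha hab
    exact ⟨tendsto_theta_div_gval hp hl ha hab, tendsto_theta_div hp hl ha hab⟩
  · intro p hp a b
    exact gval_le_theta hp a b
  · intro p a b
    exact gval_comm p a b
  · intro a b ha hb
    exact gval_one ha hb
  · intro p hp a b hb hba hab
    exact gval_near hp hb hba hab

end Pool.Agent.Results.MP_721e2b_co.Asymptotic
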